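import Mathlib

set_option autoImplicit false

namespace Pool.Agent.Results.MP_f8d954_co.NoRankRealizer

section Defs

variable {P : Type}

/-- An order is an interval order: no four points `a, b, c, d` with `a ⊏ c`, `b ⊏ d`, `b ⋢ c` and
`a ⋢ d`. -/
def IsIntervalOrder (r : PartialOrder P) : Prop :=
  ¬ ∃ a b c d : P, r.lt a c ∧ r.lt b d ∧ ¬ r.le b c ∧ ¬ r.le a d

/-- The orders `Q j`, `j < k`, are interval orders with intersection the order `p`. -/
def IsRealizer (p : PartialOrder P) {k : ℕ} (Q : Fin k → PartialOrder P) : Prop :=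
  (∀ j, IsIntervalOrder (Q j)) ∧ ∀ x y, p.le x y ↔ ∀ j, (Q j).le x y

/-- The rank of a point: the length of a longest chain with this point as its largest element. -/
noncomputable def rank (p : PartialOrder P) (x : P) : ℕ∞ :=
  @Order.height P p.toPreorder x

/-- All the orders `Q j` have the same rank function as `p`. -/
def RankPreserving (p : PartialOrder P) {k : ℕ} (Q : Fin k → PartialOrder P) : Prop :=
  ∀ j x, rank (Q j) x = rank p x

/-- The interval dimension. -/
noncomputable def intervalDim (p : PartialOrder P) : ℕ :=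
  sInf {k | ∃ Q : Fin k → PartialOrder P, IsRealizer p Q}

lemma rank_lt (p : PartialOrder P) (x y : P) (h : p.lt x y) : rank p x + 1 ≤ rank p y :=
  @Order.height_add_one_le P p.toPreorder x y h

end Defs

/-- Points `0 < 1 < 2` and `3 < 4`. -/
abbrev G : Type := Fin 5

/-- The first linear extension. -/
def l1 : G → ℕ := ![0, 1, 2, 3, 4]

/-- The second linear extension. -/
def l2 : G → ℕ := ![2, 3, 4, 0, 1]

lemma l1_inj : Function.Injective l1 := by
  intro x y
  revert x y
  decide

lemma l2_inj : Function.Injective l2 := by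
  intro x y
  revert x y
  decide

/-- The disjoint union of a three-element and a two-element chain. -/
@[instance_reducible] def ord : PartialOrder G :=
  PartialOrder.lift (fun x => (l1 x, l2 x)) (fun _ _ h => l1_inj (congrArg Prod.fst h))

lemma ord_le (x y : G) : ord.le x y ↔ l1 x ≤ l1 y ∧ l2 x ≤ l2 y := Iff.rfl

lemma ord_lt (x y : G) : ord.lt x y ↔ (l1 x ≤ l1 y ∧ l2 x ≤ l2 y) ∧ ¬ (l1 y ≤ l1 x ∧ l2 y ≤ l2 x) :=
  ord.lt_iff_le_not_ge x y

/-- The realizer by two linear orders. -/
@[instance_reducible] def R : Fin 2 → PartialOrder G :=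
  ![PartialOrder.lift l1 l1_inj, PartialOrder.lift l2 l2_inj]

lemma interval_of_lift (f : G → ℕ) (hf : Function.Injective f) :
    IsIntervalOrder (PartialOrder.lift f hf) := by
  rintro ⟨a, b, c, d, h1, h2, h3, h4⟩
  have h1' : f a < f c := h1
  have h2' : f b < f d := h2
  have h3' : ¬ f b ≤ f c := h3
  have h4' : ¬ f a ≤ f d := h4
  omega

lemma R_realizer : IsRealizer ord R := by
  constructor
  · intro j
    fin_cases j
    · exact interval_of_lift l1 l1_inj
    · exact interval_of_lift l2 l2_inj
  · intro x y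
    rw [ord_le]
    constructor
    · rintro ⟨h1, h2⟩ j
      fin_cases j
      · exact h1
      · exact h2
    · intro h
      exact ⟨h 0, h 1⟩

lemma not_interval : ¬ IsIntervalOrder ord := by
  intro h
  apply h
  refine ⟨0, 3, 1, 4, ?_, ?_, ?_, ?_⟩
  · rw [ord_lt]; decide
  · rw [ord_lt]; decide
  · rw [ord_le]; decide
  · rw [ord_le]; decide

lemma dim_eq : intervalDim ord = 2 := by
  apply le_antisymm
  · have h : 2 ∈ {k | ∃ Q : Fin k → PartialOrder G, IsRealizer ord Q} := ⟨R, R_realizer⟩
    exact Nat.sInf_le h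
  · have hne : {k | ∃ Q : Fin k → PartialOrder G, IsRealizer ord Q}.Nonempty := ⟨2, R, R_realizer⟩
    obtain ⟨Q, hQ1, hQ2⟩ := Nat.sInf_mem hne
    change 2 ≤ sInf _
    by_contra hc
    have h01 : sInf {k | ∃ Q : Fin k → PartialOrder G, IsRealizer ord Q} = 0 ∨
        sInf {k | ∃ Q : Fin k → PartialOrder G, IsRealizer ord Q} = 1 := by omega
    rcases h01 with h0 | h1
    · have : ord.le 1 0 := by
        rw [hQ2]
        intro j
        exact absurd j.2 (by omega)
      rw [ord_le] at this
      exact absurd this (by decide)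
    · have hj : ∃ j0 : Fin (sInf {k | ∃ Q : Fin k → PartialOrder G, IsRealizer ord Q}),
          ∀ j, j = j0 := by
        rw [h1]
        exact ⟨0, fun j => Subsingleton.elim _ _⟩
      obtain ⟨j0, hj0⟩ := hj
      have hle : ∀ x y, ord.le x y ↔ (Q j0).le x y := by
        intro x y
        rw [hQ2]
        constructor
        · intro h; exact h j0
        · intro h j; rw [hj0 j]; exact h
      have heq : ord = Q j0 := PartialOrder.ext fun x y => hle x y
      exact not_interval (heq ▸ hQ1 j0)

lemma rank1 : 1 ≤ rank ord 1 := by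
  have := rank_lt ord 0 1 (by rw [ord_lt]; decide)
  exact le_trans (by simp) this

/-- The rank of the point `4` is at most one. -/
lemma rank4 : rank ord 4 ≤ 1 := by
  unfold rank
  let _ := ord
  apply Order.height_le
  intro s hs
  by_contra hlen
  have hlen' : 1 < s.length := by
    have := not_le.mp hlen
    exact_mod_cast this
  have h0 : ord.lt (s ⟨0, by omega⟩) (s ⟨1, by omega⟩) :=
    s.strictMono (Fin.mk_lt_mk.2 Nat.zero_lt_one)
  have h1 : ord.lt (s ⟨1, by omega⟩) (s (Fin.last _)) := s.strictMono (Fin.mk_lt_mk.2 hlen')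
  have h2 : s (Fin.last _) = 4 := hs
  rw [h2] at h1
  have e1 := (ord_lt _ _).1 h0
  have e2 := (ord_lt _ _).1 h1
  revert e1 e2
  generalize s ⟨0, by omega⟩ = x
  generalize s ⟨1, by omega⟩ = y
  revert x y
  decide

lemma no_rank {k : ℕ} (Q : Fin k → PartialOrder G) (h : IsRealizer ord Q)
    (hr : RankPreserving ord Q) : False := by
  have h30 : ord.le 3 2 := by
    rw [h.2]
    intro j
    by_contra hc
    apply h.1 j
    have hsub : ∀ x y, ord.le x y → (Q j).le x y := fun x y hxy => (h.2 x y).1 hxy j
    have hlt : ∀ x y, ord.lt x y → (Q j).lt x y := by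
      intro x y hxy
      have h1 := hsub x y ((ord.lt_iff_le_not_ge x y).1 hxy).1
      refine ((Q j).lt_iff_le_not_ge x y).2 ⟨h1, fun h2 => ?_⟩
      have h3 : x = y := (Q j).le_antisymm x y h1 h2
      subst h3
      exact ((ord.lt_iff_le_not_ge x x).1 hxy).2 (ord.le_refl x)
    refine ⟨1, 3, 2, 4, hlt _ _ (by rw [ord_lt]; decide), hlt _ _ (by rw [ord_lt]; decide), hc, ?_⟩
    intro h14
    have hlt14 : (Q j).lt 1 4 := by
      refine ((Q j).lt_iff_le_not_ge 1 4).2 ⟨h14, fun h2 => ?_⟩
      have h3 : (1 : G) = 4 := (Q j).le_antisymm 1 4 h14 h2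
      exact absurd h3 (by decide)
    have h5 := rank_lt (Q j) 1 4 hlt14
    rw [hr j 1, hr j 4] at h5
    have h6 : (1 : ℕ∞) + 1 ≤ 1 := (add_le_add_left rank1 1).trans (h5.trans rank4)
    exact absurd h6 (by decide)
  rw [ord_le] at h30
  exact absurd h30 (by decide)

/-- **Rank-preserving interval realizers need not exist.** There is a finite ordered set (with five
elements) of interval dimension `2` that has no rank-preserving interval realizer at all,
of any size `k`. -/
theorem result : ∃ (P : Type) (p : PartialOrder P), Finite P ∧ intervalDim p = 2 ∧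
    ∀ (k : ℕ) (Q : Fin k → PartialOrder P), IsRealizer p Q → ¬ RankPreserving p Q :=
  ⟨G, ord, inferInstance, dim_eq, fun _ Q h hr => no_rank Q h hr⟩

end Pool.Agent.Results.MP_f8d954_co.NoRankRealizer
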